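import Pool.Agent.helper3.SP.SpecPP

/-!
# Module sp:PK4 (MP_7800de_pr): conditional lower bound for the core
-/

namespace TP

open DP MeasureTheory

lemma PK4_far {y v : V} {a : ℕ} (h : 2 ^ (a - 1) ≤ sd y v) : br v ∉ Inr y a := by
  intro h'
  have h1 := sd_br_le v
  have h2 := sd_triangle y (br v) v
  rw [sd_comm (br v) v] at h2
  have h3 : sd y (br v) + 2 ≤ 2 ^ (a - 1) := h'
  omega

lemma PK4_agree (b b' : V → Bool) (y : V) (a : ℕ) {v : V} (h : 2 ^ (a - 1) ≤ sd y v) :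
    col (mx (Inr y a) b b') v = col b v := by
  show mx (Inr y a) b b' (br v) = b (br v)
  unfold mx
  rw [if_neg (PK4_far h)]

lemma PK4_four {c c' : V → Bool} {x : V} {m n : ℕ} (h : ∀ v ∈ ann x m n, c v = c' v) :
    four c x m n ↔ four c' x m n := by
  unfold four twoCl
  simp only [Conn.congr h]

lemma PK4_Three {c c' : V → Bool} {x : V} {m n : ℕ} (h : ∀ v ∈ ann x m n, c v = c' v) :
    Three c x m n ↔ Three c' x m n := by
  unfold Three
  simp only [Conn.congr h]

lemma PK4_Gate {c c' : V → Bool} {x : V} {m n : ℕ} (h : ∀ v ∈ ann x m n, c v = c' v) :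
    Gate c x m n ↔ Gate c' x m n := by
  unfold Gate
  rw [PK4_four h, PK4_Three h]

lemma PK4_Std {c c' : V → Bool} {x : V} {m N : ℕ} (h : ∀ v, m ≤ sd x v → c v = c' v) :
    Std c 4 true x N (Dmark 4 x m) ↔ Std c' 4 true x N (Dmark 4 x m) := by
  have hc : ∀ (k : Bool) (p u : V),
      Conn c k (HS true x N \ ((Dmark 4 x m).N k ∪ opp 4 (zpt x N) (N / 8) k)) p u ↔
      Conn c' k (HS true x N \ ((Dmark 4 x m).N k ∪ opp 4 (zpt x N) (N / 8) k)) p u := by
    intro k p u
    apply Conn.congr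
    rintro v ⟨-, hv⟩
    apply h
    by_contra hlt
    exact hv (Or.inl (Or.inl (by push Not at hlt; exact hlt)))
  unfold Std Mrk MrkC
  simp only [hc]

lemma PK4_fl (c : V → Bool) (R : Set V) (s t : V) :
    Conn (fl c) true R s t ↔ Conn c false R s t := by
  unfold Conn
  have : {w | w ∈ R ∧ fl c w = true} = {w | w ∈ R ∧ c w = false} := by
    ext w
    simp [fl]
  rw [this]

/-- The bit of a gate and a white connection between two fixed points. -/
lemma PK4_key (hG : GD1_stmt) (hD : DUAL_stmt) (c : V → Bool) (x : V) (m n : ℕ)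
    (hev : Even (x.1 + x.2)) (hm : 1 ≤ m) (hmn : m < n) (hg : Gate c x m n) :
    ∃ u v : V, u ∈ bd x n ∧ v ∈ bd x n ∧ ∀ c' : V → Bool, (∀ w ∈ ann x m n, c w = c' w) →
      (¬ hb c' x m n ↔ Conn c' false (box x n) u v) := by
  obtain ⟨⟨p, hp, q, hq, ⟨u, hu, hpu⟩, ⟨v, hv, hqv⟩, hpq⟩, hT⟩ :=
    ((hG c x m n hev hm hmn).2.2).mpr hg
  refine ⟨u, v, hu, hv, ?_⟩
  intro c' hc'
  have hfl : ∀ w ∈ ann x m n, fl c w = fl c' w := by
    intro w hw
    unfold fl
    rw [hc' w hw]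
  have hg' : Gate c' x m n := (PK4_Gate hc').mp hg
  rw [PK4_Three hfl] at hT
  rw [Conn.congr hfl] at hpu hqv hpq
  have e1 : ¬ hb c' x m n ↔ hb (fl c') x m n := by
    have := hD c' x m n hev hm hmn hg'
    tauto
  have hsub : ann x m n ⊆ box x n := fun w hw => hw.2
  rw [e1, ← PK4_fl]
  constructor
  · rintro ⟨s, hs, t, ht, ⟨p', hp', hps⟩, ⟨q', hq', hqt⟩, hst, hbox⟩
    have hor : ∀ p' ∈ bd x m, ∀ s ∈ bd x n, Conn (fl c') true (ann x m n) p' s →
        Conn (fl c') true (ann x m n) p p' ∨ Conn (fl c') true (ann x m n) q p' := by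
      intro p' hp' s hs hps
      by_contra hno
      rw [not_or] at hno
      exact hT ⟨p, hp, q, hq, p', hp', ⟨u, hu, hpu⟩, ⟨v, hv, hqv⟩, ⟨s, hs, hps⟩, hpq, hno.2, hno.1⟩
    have up : ∀ {a b : V}, Conn (fl c') true (ann x m n) a b → Conn (fl c') true (box x n) a b :=
      fun h => Conn.mono hsub h
    rcases hor p' hp' s hs hps with h1 | h1 <;> rcases hor q' hq' t ht hqt with h2 | h2
    · exact absurd ((hps.symm.trans h1.symm).trans (h2.trans hqt)) hst
    · exact ((up hpu.symm).trans ((up h1).trans ((up hps).trans hbox))).trans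
        ((up hqt.symm).trans ((up h2.symm).trans (up hqv)))
    · exact ((up hpu.symm).trans ((up h2).trans ((up hqt).trans hbox.symm))).trans
        ((up hps.symm).trans ((up h1.symm).trans (up hqv)))
    · exact absurd ((hps.symm.trans h1.symm).trans (h2.trans hqt)) hst
  · intro hbox
    exact ⟨u, hu, v, hv, ⟨p, hp, hpu⟩, ⟨q, hq, hqv⟩,
      fun h => hpq (hpu.trans (h.trans hqv.symm)), hbox⟩

theorem PK4 (hG : GD1_stmt) (hD : DUAL_stmt) (h1 : PK1_stmt) (h3 : PK3_stmt) : PK4_stmt := by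
  intro b y g a hg ha hy hbG
  have hev : Even (y.1 + y.2) := Int.even_iff.mpr hy
  have hmn : 2 ^ a < 2 ^ (a + g) := Nat.pow_lt_pow_right (by norm_num) (by omega)
  have hle : 2 ^ (a - 1) ≤ 2 ^ a := Nat.pow_le_pow_right (by norm_num) (by omega)
  obtain ⟨u, v, hu, hv, hkey⟩ := PK4_key hG hD (col b) y (2 ^ a) (2 ^ (a + g)) hev
    Nat.one_le_two_pow hmn hbG.1
  have hag : ∀ b', ∀ w ∈ ann y (2 ^ a) (2 ^ (a + g)), col b w = col (mx (Inr y a) b b') w := by
    intro b' w hw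
    exact (PK4_agree b b' y a (hle.trans hw.1)).symm
  classical
  set Λ : Finset V := ((box_finite y (2 ^ (a - 1))).toFinset).filter
    (fun z => z ∈ Inr y a ∧ (z.1 + z.2) % 2 = 0) with hΛdef
  have hΛ : ∀ z, z ∈ Λ ↔ z ∈ Inr y a ∧ (z.1 + z.2) % 2 = 0 := by
    intro z
    rw [hΛdef, Finset.mem_filter, Set.Finite.mem_toFinset]
    constructor
    · exact fun h => h.2
    · intro h
      refine ⟨?_, h⟩
      have : sd y z + 2 ≤ 2 ^ (a - 1) := h.1
      show sd y z ≤ 2 ^ (a - 1)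
      omega
  have hmx : ∀ b', col (mx (Λ : Set V) b b') = col (mx (Inr y a) b b') := by
    intro b'
    funext w
    show mx (Λ : Set V) b b' (br w) = mx (Inr y a) b b' (br w)
    unfold mx
    by_cases hw : br w ∈ Inr y a
    · rw [if_pos hw, if_pos (by rw [Finset.mem_coe, hΛ]; exact ⟨hw, br_even w⟩)]
    · rw [if_neg hw, if_neg (by rw [Finset.mem_coe, hΛ]; exact fun h => hw h.1)]
  have hbu : br u ∉ Λ := by
    rw [hΛ]
    intro h
    refine PK4_far (y := y) (v := u) (a := a) ?_ h.1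
    have hu' : sd y u = 2 ^ (a + g) := hu
    omega
  have hp := h1 Λ (box y (2 ^ (a + g))) u v b (fun z hz => ((hΛ z).mp hz).2) hbu
  simp only [hmx] at hp
  have e1 : {b' | hb (col (mx (Inr y a) b b')) y (2 ^ a) (2 ^ (a + g))} =
      {b' | ¬ Conn (col (mx (Inr y a) b b')) false (box y (2 ^ (a + g))) u v} := by
    ext b'
    have := hkey _ (hag b')
    simp only [Set.mem_ofPred_eq]
    tauto
  have e2 : {b' | ¬ hb (col (mx (Inr y a) b b')) y (2 ^ a) (2 ^ (a + g))} =
      {b' | Conn (col (mx (Inr y a) b b')) false (box y (2 ^ (a + g))) u v} := by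
    ext b'
    exact hkey _ (hag b')
  rw [e1, e2]
  have hprob : IsProbabilityMeasure P1 := by unfold P1; infer_instance
  refine hp.trans (measureReal_mono ?_)
  rintro b' ⟨hn, z, hz, hc⟩
  obtain ⟨hzI, hze⟩ := (hΛ z).mp hz
  have hb' : mx (Inr y a) b b' ∈ GtC g y a := by
    refine ⟨(PK4_Gate (hag b')).mp hbG.1, ?_⟩
    have h2 := hbG.2
    show Std (col (mx (Inr y a) b b')) 4 true y (2 ^ (a + g + 1)) (Dmark 4 y (2 ^ (a - 1)))
    exact (PK4_Std fun w hw => (PK4_agree b b' y a hw).symm).mp h2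
  have hhb : hb (col (mx (Inr y a) b b')) y (2 ^ a) (2 ^ (a + g)) := by
    have := hkey _ (hag b')
    tauto
  refine h3 (mx (Inr y a) b b') y g a hg ha hy hb' hhb ⟨z, hze, hzI, ?_⟩
  refine (hkey (rc (col (mx (Inr y a) b b')) z false) ?_).mpr hc
  intro w hw
  rw [hag b' w hw]
  unfold rc
  rw [if_neg]
  intro hbr
  rw [br_of_even hze] at hbr
  exact PK4_far (y := y) (v := w) (a := a) (hle.trans hw.1) (hbr ▸ hzI)

end TP
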