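import Pool.Agent.helper2.SP.SpecTA

/-!
# Module sp:TA19 (MP_7800de_pr): conclusion of the first half of the separation of thick arms
-/

namespace TP.TA

open DP MeasureTheory

/-! ## Probability -/

lemma TA19_prob : IsProbabilityMeasure P1 := by unfold P1; infer_instance

lemma TA19_mono {F G : Set (V → Bool)} (h : F ⊆ G) : Pr F ≤ Pr G := by
  have := TA19_prob
  exact measureReal_mono h

lemma TA19_union (F G : Set (V → Bool)) : Pr (F ∪ G) ≤ Pr F + Pr G := by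
  have := TA19_prob
  exact measureReal_union_le F G

lemma TA19_nonneg (F : Set (V → Bool)) : 0 ≤ Pr F := measureReal_nonneg

lemma TA19_biUnion {ι : Type} (s : Finset ι) (F : ι → Set (V → Bool)) :
    Pr (⋃ i ∈ s, F i) ≤ ∑ i ∈ s, Pr (F i) := by
  have := TA19_prob
  exact measureReal_biUnion_finset_le s F

/-! ## Numbers -/

lemma TA19_rp (a : ℝ) (k : ℕ) : ((1 / 2 : ℝ) ^ k) ^ a = ((1 / 2 : ℝ) ^ a) ^ k := by
  rw [← Real.rpow_natCast, ← Real.rpow_mul (by norm_num), mul_comm, Real.rpow_mul (by norm_num),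
    Real.rpow_natCast]

lemma TA19_lim (C a δ : ℝ) (ha : 0 < a) (hδ : 0 < δ) :
    ∃ N : ℕ, ∀ k ≥ N, C * ((1 / 2 : ℝ) ^ k) ^ a ≤ δ := by
  have h1 : (1 / 2 : ℝ) ^ a < 1 := Real.rpow_lt_one (by norm_num) (by norm_num) ha
  have h0 : 0 ≤ (1 / 2 : ℝ) ^ a := Real.rpow_nonneg (by norm_num) a
  have h2 := (tendsto_pow_atTop_nhds_zero_of_lt_one h0 h1).const_mul C
  rw [mul_zero] at h2
  have h3 := h2.eventually (eventually_le_nhds hδ)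
  obtain ⟨N, hN⟩ := Filter.eventually_atTop.mp h3
  refine ⟨N, fun k hk => ?_⟩
  rw [TA19_rp]
  exact hN k hk

/-! ## The bad events -/

/-- The bad event at the circle of radius `2 ^ i`. -/
def TA19_X (s : Bool) (d e i : ℕ) (c : V → Bool) : Prop :=
  Bad s c 0 (2 ^ i) (2 ^ (i - e)) (2 ^ (i - d)) ∨
    Bad s c 0 (2 ^ i) (2 * 2 ^ (i - d) + 14) (2 ^ (i - 2))

lemma TA19_bad (hDB : DB_stmt) (δ : ℝ) (hδ : 0 < δ) : ∃ d e : ℕ, 7 ≤ d ∧ d < e ∧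
    ∀ (s : Bool) (i : ℕ), e + 3 ≤ i → Pr (Ev fun c => TA19_X s d e i c) ≤ δ := by
  obtain ⟨C, hC, a, ha, hB⟩ := hDB
  obtain ⟨N₁, hN₁⟩ := TA19_lim (C * 4) a (δ / 2) ha (by positivity)
  obtain ⟨N₂, hN₂⟩ := TA19_lim (C * 2 ^ (N₁ + 7)) a (δ / 2) ha (by positivity)
  refine ⟨N₁ + 7, N₁ + 7 + (N₂ + 1), by omega, by omega, ?_⟩
  intro s i hi
  obtain ⟨j, rfl⟩ : ∃ j, i = N₁ + 7 + (N₂ + 1) + 3 + j := ⟨i - (N₁ + 7 + (N₂ + 1) + 3), by omega⟩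
  have e1 : N₁ + 7 + (N₂ + 1) + 3 + j - (N₁ + 7 + (N₂ + 1)) = 3 + j := by omega
  have e2 : N₁ + 7 + (N₂ + 1) + 3 + j - (N₁ + 7) = (N₂ + 1) + (3 + j) := by omega
  have e3 : N₁ + 7 + (N₂ + 1) + 3 + j - 2 = (N₁ + 1) + 4 + ((N₂ + 1) + (3 + j)) := by omega
  have e4 : N₁ + 7 + (N₂ + 1) + 3 + j = (N₁ + 7) + ((N₂ + 1) + (3 + j)) := by omega
  have hsub : (Ev fun c => TA19_X s (N₁ + 7) (N₁ + 7 + (N₂ + 1)) (N₁ + 7 + (N₂ + 1) + 3 + j) c) ⊆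
      (Ev fun c => Bad s c 0 (2 ^ (N₁ + 7 + (N₂ + 1) + 3 + j)) (2 ^ (3 + j))
        (2 ^ ((N₂ + 1) + (3 + j)))) ∪
      (Ev fun c => Bad s c 0 (2 ^ (N₁ + 7 + (N₂ + 1) + 3 + j)) (2 * 2 ^ ((N₂ + 1) + (3 + j)) + 14)
        (2 ^ ((N₁ + 1) + 4 + ((N₂ + 1) + (3 + j))))) := by
    intro b hb
    have hb' : TA19_X s (N₁ + 7) (N₁ + 7 + (N₂ + 1)) (N₁ + 7 + (N₂ + 1) + 3 + j) (col b) := hb
    unfold TA19_X at hb'
    rw [e1, e2, e3] at hb'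
    exact hb'
  have hev : Even ((0 : V).1 + (0 : V).2) := by simp
  have b1 := hB s 0 (2 ^ (N₁ + 7 + (N₂ + 1) + 3 + j)) (2 ^ (3 + j)) (2 ^ ((N₂ + 1) + (3 + j))) hev
    Nat.one_le_two_pow (Nat.pow_le_pow_right (by norm_num) (by omega))
    (Nat.pow_le_pow_right (by norm_num) (by omega))
  have hbig : 2 * 2 ^ ((N₂ + 1) + (3 + j)) + 14 ≤ 2 ^ ((N₁ + 1) + 4 + ((N₂ + 1) + (3 + j))) := by
    have h1 : 2 ^ ((N₁ + 1) + 4 + ((N₂ + 1) + (3 + j))) =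
        2 ^ (N₁ + 1) * 16 * 2 ^ ((N₂ + 1) + (3 + j)) := by
      rw [pow_add, pow_add]; norm_num
    have h2 : 1 ≤ 2 ^ (N₁ + 1) := Nat.one_le_two_pow
    have h3 : 1 ≤ 2 ^ ((N₂ + 1) + (3 + j)) := Nat.one_le_two_pow
    rw [h1]
    nlinarith
  have b2 := hB s 0 (2 ^ (N₁ + 7 + (N₂ + 1) + 3 + j)) (2 * 2 ^ ((N₂ + 1) + (3 + j)) + 14)
    (2 ^ ((N₁ + 1) + 4 + ((N₂ + 1) + (3 + j)))) hev (by omega) hbig
    (Nat.pow_le_pow_right (by norm_num) (by omega))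
  have q1 : C * (((2 ^ (N₁ + 7 + (N₂ + 1) + 3 + j) : ℕ) : ℝ) / ((2 ^ ((N₂ + 1) + (3 + j)) : ℕ) : ℝ)) *
      (((2 ^ (3 + j) : ℕ) : ℝ) / ((2 ^ ((N₂ + 1) + (3 + j)) : ℕ) : ℝ)) ^ a ≤ δ / 2 := by
    have f1 : (((2 ^ (N₁ + 7 + (N₂ + 1) + 3 + j) : ℕ) : ℝ) / ((2 ^ ((N₂ + 1) + (3 + j)) : ℕ) : ℝ)) =
        2 ^ (N₁ + 7) := by
      rw [e4]
      push_cast
      rw [pow_add (2 : ℝ) (N₁ + 7)]
      field_simp
    have f2 : (((2 ^ (3 + j) : ℕ) : ℝ) / ((2 ^ ((N₂ + 1) + (3 + j)) : ℕ) : ℝ)) =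
        (1 / 2 : ℝ) ^ (N₂ + 1) := by
      push_cast
      rw [pow_add (2 : ℝ) (N₂ + 1), one_div, inv_pow]
      field_simp
    rw [f1, f2]
    exact hN₂ (N₂ + 1) (by omega)
  have q2 : C * (((2 ^ (N₁ + 7 + (N₂ + 1) + 3 + j) : ℕ) : ℝ) /
      ((2 ^ ((N₁ + 1) + 4 + ((N₂ + 1) + (3 + j))) : ℕ) : ℝ)) *
      (((2 * 2 ^ ((N₂ + 1) + (3 + j)) + 14 : ℕ) : ℝ) /
        ((2 ^ ((N₁ + 1) + 4 + ((N₂ + 1) + (3 + j))) : ℕ) : ℝ)) ^ a ≤ δ / 2 := by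
    have f1 : (((2 ^ (N₁ + 7 + (N₂ + 1) + 3 + j) : ℕ) : ℝ) /
        ((2 ^ ((N₁ + 1) + 4 + ((N₂ + 1) + (3 + j))) : ℕ) : ℝ)) = 4 := by
      have : N₁ + 7 + (N₂ + 1) + 3 + j = 2 + ((N₁ + 1) + 4 + ((N₂ + 1) + (3 + j))) := by omega
      rw [this]
      push_cast
      rw [pow_add (2 : ℝ) 2]
      field_simp
      norm_num
    have f2 : (((2 * 2 ^ ((N₂ + 1) + (3 + j)) + 14 : ℕ) : ℝ) /
        ((2 ^ ((N₁ + 1) + 4 + ((N₂ + 1) + (3 + j))) : ℕ) : ℝ)) ≤ (1 / 2 : ℝ) ^ (N₁ + 1) := by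
      push_cast
      rw [div_le_iff₀ (by positivity)]
      have h3 : (1 : ℝ) ≤ 2 ^ ((N₂ + 1) + (3 + j)) := one_le_pow₀ (by norm_num)
      have h4 : (1 / 2 : ℝ) ^ (N₁ + 1) * 2 ^ ((N₁ + 1) + 4 + ((N₂ + 1) + (3 + j))) =
          16 * 2 ^ ((N₂ + 1) + (3 + j)) := by
        rw [pow_add (2 : ℝ) ((N₁ + 1) + 4), pow_add (2 : ℝ) (N₁ + 1) 4, one_div, inv_pow]
        field_simp
        norm_num
      rw [h4]
      linarith
    have f3 : (((2 * 2 ^ ((N₂ + 1) + (3 + j)) + 14 : ℕ) : ℝ) /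
        ((2 ^ ((N₁ + 1) + 4 + ((N₂ + 1) + (3 + j))) : ℕ) : ℝ)) ^ a ≤ ((1 / 2 : ℝ) ^ (N₁ + 1)) ^ a :=
      Real.rpow_le_rpow (by positivity) f2 ha.le
    rw [f1]
    calc _ ≤ C * 4 * ((1 / 2 : ℝ) ^ (N₁ + 1)) ^ a :=
          mul_le_mul_of_nonneg_left f3 (by positivity)
      _ ≤ δ / 2 := hN₁ (N₁ + 1) (by omega)
  calc _ ≤ _ := TA19_mono hsub
    _ ≤ _ := TA19_union _ _
    _ ≤ δ / 2 + δ / 2 := add_le_add (b1.trans q1) (b2.trans q2)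
    _ = δ := by ring

/-- Locality of the bad event. -/
lemma TA19_loc (hDL : DL_stmt) (s : Bool) (d e i : ℕ) (hd : 2 ≤ d) (hi : d ≤ i) :
    Loc (Ev fun c => TA19_X s d e i c)
      {v | 2 ^ i ≤ sd 0 v + 2 ^ (i - 2) ∧ sd 0 v ≤ 2 ^ i + 2 ^ (i - 2) ∧ v ∈ HS s 0 (2 ^ i)} := by
  have h1 := hDL s 0 (2 ^ i) (2 ^ (i - e)) (2 ^ (i - d))
    (Nat.pow_lt_pow_right (by norm_num) (by omega))
  have h2 := hDL s 0 (2 ^ i) (2 * 2 ^ (i - d) + 14) (2 ^ (i - 2))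
    (Nat.pow_lt_pow_right (by norm_num) (by omega))
  have h3 : 2 ^ (i - d) ≤ 2 ^ (i - 2) := Nat.pow_le_pow_right (by norm_num) (by omega)
  have h4 := (h1.mono (A' := {v | 2 ^ i ≤ sd 0 v + 2 ^ (i - 2) ∧ sd 0 v ≤ 2 ^ i + 2 ^ (i - 2) ∧
    v ∈ HS s 0 (2 ^ i)}) (by
      rintro v ⟨a1, a2, a3⟩
      exact ⟨by omega, by omega, a3⟩)).union h2
  have h5 : (Ev fun c => TA19_X s d e i c) =
      (Ev fun c => Bad s c 0 (2 ^ i) (2 ^ (i - e)) (2 ^ (i - d))) ∪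
      (Ev fun c => Bad s c 0 (2 ^ i) (2 * 2 ^ (i - d) + 14) (2 ^ (i - 2))) := by
    ext b; exact Iff.rfl
  rw [h5]
  exact h4.mono (by simp)

/-! ## Good ends -/

lemma TA19_good (i d e η : ℕ) (hd : d < e) (hη : e + 3 ≤ η) (hi : η ≤ i) (E : Sp6) (y : ℕ → V)
    (h1 : E.n = 2 ^ i) (h2 : E.a = 2 ^ (i - η)) (h3 : E.A = 2 ^ (i - (e + 1)))
    (hm : ∀ l < 6, E.y l ∈ bd 0 (2 ^ i)) (hc : Cyc6 0 (2 ^ i) E.y)
    (hs : ∀ l < 6, sd (E.y l) (y l) ≤ 2 ^ (i - η))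
    (hy : ∀ l < 6, ∀ l' < 6, l ≠ l' → 2 ^ (i - d) + 1 ≤ sd (y l) (y l')) :
    Gd6 0 i (d + 1) (e + 1) η E := by
  refine ⟨h1, h2, h3, hm, hc, ?_⟩
  intro l hl l' hl' hne
  have a1 := hs l hl
  have a2 := hs l' hl'
  have a3 := hy l hl l' hl' hne
  have a4 := sd_triangle (y l) (E.y l) (y l')
  have a5 := sd_triangle (E.y l) (E.y l') (y l')
  rw [sd_comm (y l) (E.y l)] at a4
  have a6 : 2 ^ (i - d) = 2 * 2 ^ (i - (d + 1)) := by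
    rw [← pow_succ']; congr 1; omega
  have a7 : 2 * 2 ^ (i - η) ≤ 2 ^ (i - (d + 1)) := by
    rw [← pow_succ']; exact Nat.pow_le_pow_right (by norm_num) (by omega)
  omega

/-- The fallback end. -/
lemma TA19_std (hTB4 : TB4_stmt) (i d e η : ℕ) (hi : 6 ≤ i) :
    Gd6 0 i d e η ⟨2 ^ i, zp6 0 (2 ^ i), 2 ^ (i - η), 2 ^ (i - e)⟩ := by
  obtain ⟨h, -⟩ := hTB4 0 i hi
  refine ⟨rfl, rfl, rfl, h.mem, h.cyc, ?_⟩
  intro l hl l' hl' hne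
  have h1 : 2 ^ (i - d) ≤ 2 ^ (i - 0) := Nat.pow_le_pow_right (by norm_num) (by omega)
  exact h1.trans (h.sep l hl l' hl' hne)

/-! ## The deterministic part -/

lemma TA19_det (h13 : TA13_stmt) (p q d e η : ℕ) (hd7 : 7 ≤ d) (hde : d < e) (hη : e + 3 ≤ η)
    (hp : η ≤ p) (hpq : p + 2 ≤ q) (M : ℕ) (F F' G G' : ℕ → Sp6)
    (hF : ∀ y : ℕ → V, (∀ l < 6, y l ∈ bd 0 (2 ^ q)) → Cyc6 0 (2 ^ q) y →
      (∀ l < 6, ∀ l' < 6, l ≠ l' → 2 * 2 ^ (q - η) ≤ sd (y l) (y l')) →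
      ∃ k < M, (F k).n = 2 ^ q ∧ (F k).a = 2 ^ (q - η) ∧ (F k).A = 2 ^ (q - (e + 1)) ∧
        (∀ l < 6, (F k).y l ∈ bd 0 (2 ^ q)) ∧ Cyc6 0 (2 ^ q) (F k).y ∧
        ∀ l < 6, sd ((F k).y l) (y l) ≤ 2 ^ (q - η))
    (hF' : ∀ y : ℕ → V, (∀ l < 6, y l ∈ bd 0 (2 ^ p)) → Cyc6 0 (2 ^ p) y →
      (∀ l < 6, ∀ l' < 6, l ≠ l' → 2 * 2 ^ (p - η) ≤ sd (y l) (y l')) →
      ∃ k < M, (F' k).n = 2 ^ p ∧ (F' k).a = 2 ^ (p - η) ∧ (F' k).A = 2 ^ (p - (e + 1)) ∧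
        (∀ l < 6, (F' k).y l ∈ bd 0 (2 ^ p)) ∧ Cyc6 0 (2 ^ p) (F' k).y ∧
        ∀ l < 6, sd ((F' k).y l) (y l) ≤ 2 ^ (p - η))
    (hG : ∀ k, Gd6 0 q (d + 1) (e + 1) η (F k) → G k = F k)
    (hG' : ∀ k, Gd6 0 p (d + 1) (e + 1) η (F' k) → G' k = F' k)
    (c : V → Bool) (hc : BC c) (K K' : Set V) (hT : TC c 0 (2 ^ p) (2 ^ q) K K')
    (hO : ¬ (TA19_X true d e q c ∨ TA19_X true d e q (Th 0 (2 ^ p) (2 ^ q) K c) ∨
      TA19_X true d e q (Th 0 (2 ^ p) (2 ^ q) K' c)))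
    (hI : ¬ (TA19_X false d e p c ∨ TA19_X false d e p (Th 0 (2 ^ p) (2 ^ q) K c) ∨
      TA19_X false d e p (Th 0 (2 ^ p) (2 ^ q) K' c))) :
    ∃ k < M, ∃ k' < M, SixM c 0 (G k) (G' k') := by
  have hev : Even ((0 : V).1 + (0 : V).2) := by simp
  have nbO : ∀ c' : V → Bool, ¬ TA19_X true d e q c' →
      NB true c' 0 (2 ^ p) (2 ^ q) (2 ^ (q - e)) (2 ^ (q - d)) (2 ^ (q - 2)) := by
    intro c' h
    unfold TA19_X at h
    rw [not_or] at h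
    simpa [NB, ci] using h
  have nbI : ∀ c' : V → Bool, ¬ TA19_X false d e p c' →
      NB false c' 0 (2 ^ p) (2 ^ q) (2 ^ (p - e)) (2 ^ (p - d)) (2 ^ (p - 2)) := by
    intro c' h
    unfold TA19_X at h
    rw [not_or] at h
    simpa [NB, ci] using h
  rw [not_or, not_or] at hO hI
  -- numbers
  have num : ∀ i : ℕ, η ≤ i → 8 * (2 * 2 ^ (i - d) + 14) ≤ 2 ^ (i - 2) := by
    intro i hi
    obtain ⟨j, rfl⟩ : ∃ j, i = d + 3 + j := ⟨i - (d + 3), by omega⟩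
    obtain ⟨k, rfl⟩ : ∃ k, d = 7 + k := ⟨d - 7, by omega⟩
    have e1 : 7 + k + 3 + j - (7 + k) = 3 + j := by omega
    have e2 : 7 + k + 3 + j - 2 = 5 + k + (3 + j) := by omega
    rw [e1, e2, pow_add 2 (5 + k), pow_add 2 5, pow_add 2 3]
    have h1 : 1 ≤ 2 ^ k := Nat.one_le_two_pow
    have h2 : 1 ≤ 2 ^ j := Nat.one_le_two_pow
    have h3 : 1 * 2 ^ j ≤ 2 ^ k * 2 ^ j := Nat.mul_le_mul_right _ h1
    have e3 : 2 ^ 5 * 2 ^ k * (2 ^ 3 * 2 ^ j) = 256 * (2 ^ k * 2 ^ j) := by ring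
    rw [e3]
    omega
  have lt1 : ∀ i : ℕ, η ≤ i → 2 ^ (i - e) < 2 ^ (i - d) := fun i hi =>
    Nat.pow_lt_pow_right (by norm_num) (by omega)
  have le2 : ∀ i : ℕ, 2 ^ (i - 2) ≤ 2 ^ i := fun i =>
    Nat.pow_le_pow_right (by norm_num) (by omega)
  have pq1 : 2 ^ p ≤ 2 ^ (q - 2) := Nat.pow_le_pow_right (by norm_num) (by omega)
  have q4 : 2 ^ q = 4 * 2 ^ (q - 2) := by
    obtain ⟨j, rfl⟩ : ∃ j, q = 2 + j := ⟨q - 2, by omega⟩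
    rw [show 2 + j - 2 = j by omega, pow_add]; norm_num
  have p4 := le2 p
  have one : ∀ j : ℕ, 1 ≤ 2 ^ j := fun j => Nat.one_le_two_pow
  obtain ⟨y, y', hmem, hcy, hcy', hsep, hfin⟩ := h13 c 0 (2 ^ p) (2 ^ q) K K' (2 ^ (q - e))
    (2 ^ (q - d)) (2 ^ (q - 2)) (2 ^ (p - e)) (2 ^ (p - d)) (2 ^ (p - 2)) hev (one p)
    (Nat.pow_lt_pow_right (by norm_num) (by omega)) hc hT (by omega) (num q (by omega)) (le2 q)
    (one _) (lt1 q (by omega)) (by omega) (num p hp) (le2 p) (one _) (lt1 p hp)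
    (nbO c hO.1) (nbO _ hO.2.1) (nbO _ hO.2.2) (nbI c hI.1) (nbI _ hI.2.1) (nbI _ hI.2.2)
  have two : ∀ i : ℕ, 2 * 2 ^ (i - η) ≤ 2 * 2 ^ (i - η) := fun i => le_refl _
  have hη2 : ∀ i : ℕ, η ≤ i → 2 * 2 ^ (i - η) ≤ 2 ^ (i - d) := by
    intro i hi
    rw [← pow_succ']; exact Nat.pow_le_pow_right (by norm_num) (by omega)
  obtain ⟨k, hk, k1, k2, k3, k4, k5, k6⟩ := hF y (fun l hl => (hmem l hl).1) hcy (by
    intro l hl l' hl' hne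
    have := (hsep l hl l' hl' hne).1
    have := hη2 q (by omega)
    omega)
  obtain ⟨k', hk', k1', k2', k3', k4', k5', k6'⟩ := hF' y' (fun l hl => (hmem l hl).2) hcy' (by
    intro l hl l' hl' hne
    have := (hsep l hl l' hl' hne).2
    have := hη2 p hp
    omega)
  have g1 : Gd6 0 q (d + 1) (e + 1) η (F k) :=
    TA19_good q d e η hde hη (by omega) (F k) y k1 k2 k3 k4 k5 k6
      (fun l hl l' hl' hne => (hsep l hl l' hl' hne).1)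
  have g2 : Gd6 0 p (d + 1) (e + 1) η (F' k') :=
    TA19_good p d e η hde hη hp (F' k') y' k1' k2' k3' k4' k5' k6'
      (fun l hl l' hl' hne => (hsep l hl l' hl' hne).2)
  refine ⟨k, hk, k', hk', ?_⟩
  rw [hG k g1, hG' k' g2]
  have win : ∀ i : ℕ, η ≤ i → 2 ^ (i - (e + 1)) + 2 ^ (i - η) + 1 < 2 ^ (i - e) := by
    intro i hi
    obtain ⟨j, rfl⟩ : ∃ j, i = η + j := ⟨i - η, by omega⟩
    obtain ⟨r, rfl⟩ : ∃ r, η = e + 3 + r := ⟨η - (e + 3), by omega⟩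
    have e1 : e + 3 + r + j - (e + 1) = 2 + (r + j) := by omega
    have e2 : e + 3 + r + j - (e + 3 + r) = j := by omega
    have e3 : e + 3 + r + j - e = 3 + (r + j) := by omega
    rw [e1, e2, e3, pow_add, pow_add 2 3]
    have h1 : 2 ^ j ≤ 2 ^ (r + j) := Nat.pow_le_pow_right (by norm_num) (by omega)
    have h2 : 1 ≤ 2 ^ (r + j) := Nat.one_le_two_pow
    omega
  refine hfin (F k) (F' k') k1 k1' ?_ ?_ ?_ ?_
  · intro l hl; rw [k2]; exact k6 l hl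
  · intro l hl; rw [k2']; exact k6' l hl
  · rw [k2, k3]; exact win q (by omega)
  · rw [k2', k3']; exact win p hp

theorem TA19 (hTB4 : TB4_stmt) : TA19_stmt := by
  intro h13 h17 h18 hDB hDL hC2 ε hε
  obtain ⟨d, e, hd7, hde, hbad⟩ := TA19_bad hDB (ε / 50) (by positivity)
  refine ⟨d + 1, e + 1, by omega, by omega, ?_⟩
  intro η hη
  obtain ⟨M, hM⟩ := h18 η
  obtain ⟨C₂, hC₂, a₂, ha₂, hreach⟩ := hC2
  obtain ⟨N, hN⟩ := TA19_lim C₂ a₂ (1 / 4) ha₂ (by norm_num)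
  refine ⟨2 * (M + 1 : ℝ) ^ 2, by positivity, η + N + 10, ?_⟩
  intro p q hp hq
  have hev : Even ((0 : V).1 + (0 : V).2) := by simp
  classical
  obtain ⟨F, hF⟩ := hM 0 q (e + 1) (by omega)
  obtain ⟨F', hF'⟩ := hM 0 p (e + 1) (by omega)
  set G : ℕ → Sp6 := fun k => if Gd6 0 q (d + 1) (e + 1) η (F k) then F k else
    ⟨2 ^ q, zp6 0 (2 ^ q), 2 ^ (q - η), 2 ^ (q - (e + 1))⟩ with hGdef
  set G' : ℕ → Sp6 := fun k => if Gd6 0 p (d + 1) (e + 1) η (F' k) then F' k else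
    ⟨2 ^ p, zp6 0 (2 ^ p), 2 ^ (p - η), 2 ^ (p - (e + 1))⟩ with hGdef'
  have gG : ∀ k, Gd6 0 q (d + 1) (e + 1) η (G k) := by
    intro k
    simp only [hGdef]
    split_ifs with h
    · exact h
    · exact TA19_std hTB4 q _ _ _ (by omega)
  have gG' : ∀ k, Gd6 0 p (d + 1) (e + 1) η (G' k) := by
    intro k
    simp only [hGdef']
    split_ifs with h
    · exact h
    · exact TA19_std hTB4 p _ _ _ (by omega)
  have eG : ∀ k, Gd6 0 q (d + 1) (e + 1) η (F k) → G k = F k := by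
    intro k h; simp only [hGdef, if_pos h]
  have eG' : ∀ k, Gd6 0 p (d + 1) (e + 1) η (F' k) → G' k = F' k := by
    intro k h; simp only [hGdef', if_pos h]
  -- the best pair
  obtain ⟨kk, hkk, hmax⟩ := Finset.exists_max_image
    (Finset.range (M + 1) ×ˢ Finset.range (M + 1))
    (fun k : ℕ × ℕ => Pr (Ev fun c => SixM c 0 (G k.1) (G' k.2))) ⟨(0, 0), by simp⟩
  refine ⟨G kk.1, G' kk.2, gG _, gG' _, ?_⟩
  -- one arm events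
  have harm : ∀ p' q' : ℕ, p' + N ≤ q' → Pr (Ev fun c => reach c false 0 (2 ^ p') (2 ^ q')) ≤ 1 / 4 := by
    intro p' q' hpq
    have h1 := hreach false 0 (2 ^ p') (2 ^ q') Nat.one_le_two_pow
      (Nat.pow_le_pow_right (by norm_num) (by omega))
    obtain ⟨j, rfl⟩ : ∃ j, q' = p' + j := ⟨q' - p', by omega⟩
    have h2 : (((2 ^ p' : ℕ) : ℝ) / ((2 ^ (p' + j) : ℕ) : ℝ)) = (1 / 2 : ℝ) ^ j := by
      push_cast
      rw [pow_add, one_div, inv_pow]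
      field_simp
    rw [h2] at h1
    exact h1.trans (hN j (by omega))
  obtain ⟨t1, t2⟩ := h17
  -- distances
  have bdO : BDis (ann 0 (2 ^ p) (2 ^ (q - 1)))
      {v | 2 ^ q ≤ sd 0 v + 2 ^ (q - 2) ∧ sd 0 v ≤ 2 ^ q + 2 ^ (q - 2) ∧ v ∈ HS true 0 (2 ^ q)} := by
    apply BDis.of_sd
    rintro v ⟨-, hv⟩ w ⟨hw, -⟩
    have h1 := sd_triangle 0 v w
    have e1 : 2 ^ q = 4 * 2 ^ (q - 2) := by
      obtain ⟨j, rfl⟩ : ∃ j, q = 2 + j := ⟨q - 2, by omega⟩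
      rw [show 2 + j - 2 = j by omega, pow_add]; norm_num
    have e2 : 2 ^ (q - 1) = 2 * 2 ^ (q - 2) := by
      rw [← pow_succ']; congr 1; omega
    have e3 : 2 ≤ 2 ^ (q - 2) := by
      calc 2 = 2 ^ 1 := by norm_num
        _ ≤ 2 ^ (q - 2) := Nat.pow_le_pow_right (by norm_num) (by omega)
    omega
  have bdI : BDis (ann 0 (2 ^ (p + 1)) (2 ^ q))
      {v | 2 ^ p ≤ sd 0 v + 2 ^ (p - 2) ∧ sd 0 v ≤ 2 ^ p + 2 ^ (p - 2) ∧ v ∈ HS false 0 (2 ^ p)} := by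
    apply BDis.of_sd
    rintro v ⟨hv, -⟩ w ⟨-, hw, -⟩
    have h1 := sd_triangle 0 w v
    rw [sd_comm w v] at h1
    have e1 : 2 ^ p = 4 * 2 ^ (p - 2) := by
      obtain ⟨j, rfl⟩ : ∃ j, p = 2 + j := ⟨p - 2, by omega⟩
      rw [show 2 + j - 2 = j by omega, pow_add]; norm_num
    have e2 : 2 ^ (p + 1) = 2 * 2 ^ p := pow_succ' 2 p
    have e3 : 2 ≤ 2 ^ (p - 2) := by
      calc 2 = 2 ^ 1 := by norm_num
        _ ≤ 2 ^ (p - 2) := Nat.pow_le_pow_right (by norm_num) (by omega)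
    omega
  have pO := t2 0 (2 ^ p) (2 ^ p) (2 ^ (q - 1)) (2 ^ q)
    {v | 2 ^ q ≤ sd 0 v + 2 ^ (q - 2) ∧ sd 0 v ≤ 2 ^ q + 2 ^ (q - 2) ∧ v ∈ HS true 0 (2 ^ q)}
    (TA19_X true d e q) hev Nat.one_le_two_pow le_rfl
    (Nat.pow_lt_pow_right (by norm_num) (by omega)) (Nat.pow_le_pow_right (by norm_num) (by omega))
    (harm p (q - 1) (by omega)) bdO (TA19_loc hDL true d e q (by omega) (by omega))
  have pI := t2 0 (2 ^ p) (2 ^ (p + 1)) (2 ^ q) (2 ^ q)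
    {v | 2 ^ p ≤ sd 0 v + 2 ^ (p - 2) ∧ sd 0 v ≤ 2 ^ p + 2 ^ (p - 2) ∧ v ∈ HS false 0 (2 ^ p)}
    (TA19_X false d e p) hev Nat.one_le_two_pow (Nat.pow_le_pow_right (by norm_num) (by omega))
    (Nat.pow_lt_pow_right (by norm_num) (by omega)) le_rfl
    (harm (p + 1) q (by omega)) bdI (TA19_loc hDL false d e p (by omega) (by omega))
  have bO := hbad true q (by omega)
  have bI := hbad false p (by omega)
  have h3 := t1 0 (2 ^ p) (2 ^ q) hev Nat.one_le_two_pow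
    (Nat.pow_lt_pow_right (by norm_num) (by omega)) (harm p q (by omega))
  -- inclusion
  set BO := Ev fun c => ∃ K K' : Set V, TC c 0 (2 ^ p) (2 ^ q) K K' ∧
    (TA19_X true d e q c ∨ TA19_X true d e q (Th 0 (2 ^ p) (2 ^ q) K c) ∨
      TA19_X true d e q (Th 0 (2 ^ p) (2 ^ q) K' c)) with hBO
  set BI := Ev fun c => ∃ K K' : Set V, TC c 0 (2 ^ p) (2 ^ q) K K' ∧
    (TA19_X false d e p c ∨ TA19_X false d e p (Th 0 (2 ^ p) (2 ^ q) K c) ∨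
      TA19_X false d e p (Th 0 (2 ^ p) (2 ^ q) K' c)) with hBI
  have hincl : (Ev fun c => TE c 0 (2 ^ p) (2 ^ q)) ⊆ (BO ∪ BI) ∪
      ⋃ k ∈ (Finset.range (M + 1) ×ˢ Finset.range (M + 1)),
        Ev fun c => SixM c 0 (G k.1) (G' k.2) := by
    intro b hb
    obtain ⟨K, K', hT⟩ : ∃ K K' : Set V, TC (col b) 0 (2 ^ p) (2 ^ q) K K' := hb
    by_cases hO : TA19_X true d e q (col b) ∨ TA19_X true d e q (Th 0 (2 ^ p) (2 ^ q) K (col b)) ∨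
      TA19_X true d e q (Th 0 (2 ^ p) (2 ^ q) K' (col b))
    · left; left
      exact ⟨K, K', hT, hO⟩
    by_cases hI : TA19_X false d e p (col b) ∨ TA19_X false d e p (Th 0 (2 ^ p) (2 ^ q) K (col b)) ∨
      TA19_X false d e p (Th 0 (2 ^ p) (2 ^ q) K' (col b))
    · left; right
      exact ⟨K, K', hT, hI⟩
    right
    obtain ⟨k, hk, k', hk', hS⟩ := TA19_det h13 p q d e η hd7 hde (by omega) (by omega) (by omega)
      M F F' G G' hF hF' eG eG' (col b) (fun v => (col_br b v).symm) K K' hT hO hI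
    refine Set.mem_iUnion₂.mpr ⟨(k, k'), ?_, hS⟩
    simp only [Finset.mem_product, Finset.mem_range]
    omega
  have hsum : ∑ k ∈ (Finset.range (M + 1) ×ˢ Finset.range (M + 1)),
      Pr (Ev fun c => SixM c 0 (G k.1) (G' k.2)) ≤
        (M + 1 : ℝ) ^ 2 * Pr (Ev fun c => SixM c 0 (G kk.1) (G' kk.2)) := by
    have := Finset.sum_le_card_nsmul _ _ _ hmax
    rw [Finset.card_product, Finset.card_range, nsmul_eq_mul] at this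
    push_cast at this
    rw [sq]
    exact this
  have hTE : Pr (Ev fun c => TE c 0 (2 ^ p) (2 ^ q)) ≤ (Pr BO + Pr BI) +
      (M + 1 : ℝ) ^ 2 * Pr (Ev fun c => SixM c 0 (G kk.1) (G' kk.2)) :=
    calc _ ≤ _ := TA19_mono hincl
      _ ≤ _ := TA19_union _ _
      _ ≤ _ := add_le_add (TA19_union _ _) ((TA19_biUnion _ _).trans hsum)
  have nn1 : 0 ≤ Pr (Ev fun c => Three c 0 (2 ^ p) (2 ^ (q - 1))) := TA19_nonneg _
  have nn2 : 0 ≤ Pr (Ev fun c => Three c 0 (2 ^ (p + 1)) (2 ^ q)) := TA19_nonneg _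
  have cO : Pr BO ≤ 12 * (ε / 50) * Pr (Ev fun c => Three c 0 (2 ^ p) (2 ^ (q - 1))) :=
    pO.trans (mul_le_mul_of_nonneg_right (mul_le_mul_of_nonneg_left bO (by norm_num)) nn1)
  have cI : Pr BI ≤ 12 * (ε / 50) * Pr (Ev fun c => Three c 0 (2 ^ (p + 1)) (2 ^ q)) :=
    pI.trans (mul_le_mul_of_nonneg_right (mul_le_mul_of_nonneg_left bI (by norm_num)) nn2)
  show Pr (Ev fun c => Three c 0 (2 ^ p) (2 ^ q)) ≤
    2 * (M + 1 : ℝ) ^ 2 * Pr (Ev fun c => SixM c 0 (G kk.1) (G' kk.2)) +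
      ε * (Pr (Ev fun c => Three c 0 (2 ^ p) (2 ^ (q - 1))) +
        Pr (Ev fun c => Three c 0 (2 ^ (p + 1)) (2 ^ q)))
  nlinarith [mul_nonneg hε.le nn1, mul_nonneg hε.le nn2]

end TP.TA
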