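import Pool.Agent.helper96.SP.SpecTB
import Pool.Agent.helper96.DP.Basic
import Pool.Agent.helper64.TP.Basic

/-!
# Project sp, module TB10: six arms with standard ends at a bounded ratio
-/

set_option autoImplicit false

namespace TP

open DP MeasureTheory

/-! ## The chains -/

/-- Horizontal coordinate of the cell number `t` in units of `ℓ`. -/
def TB10_A (t : ℕ) : ℕ := 128 + 2 * min t 1472 + 2 * (t - 2432)

/-- Vertical coordinate. -/
def TB10_B (t : ℕ) : ℕ := 128 + 2 * (min t 2432 - 1472)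

/-- The cell number `t` of the chain number `l`. -/
def TB10_g (x : V) (ℓ l t : ℕ) : V :=
  if l = 0 then (x.1 + (TB10_A t * ℓ : ℕ), x.2 - (TB10_B t * ℓ : ℕ))
  else if l = 1 then (x.1 + (TB10_A t * ℓ : ℕ), x.2 + (TB10_B t * ℓ : ℕ))
  else if l = 2 then (x.1, x.2 + ((128 + 2 * t) * ℓ : ℕ))
  else if l = 3 then (x.1 - (TB10_A t * ℓ : ℕ), x.2 + (TB10_B t * ℓ : ℕ))
  else if l = 4 then (x.1 - (TB10_A t * ℓ : ℕ), x.2 - (TB10_B t * ℓ : ℕ))
  else (x.1, x.2 - ((128 + 2 * t) * ℓ : ℕ))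

/-- Number of steps. -/
def TB10_n (l : ℕ) : ℕ := if l = 2 ∨ l = 5 then 2112 else 3072

/-- The chain number `l`. -/
def TB10_gs (x : V) (ℓ l : ℕ) : List V := (List.range (TB10_n l + 1)).map (TB10_g x ℓ l)

theorem TB10_len (x : V) (ℓ l : ℕ) : (TB10_gs x ℓ l).length = TB10_n l + 1 := by simp [TB10_gs]

theorem TB10_ne (x : V) (ℓ l : ℕ) : TB10_gs x ℓ l ≠ [] := by
  intro h
  have := TB10_len x ℓ l
  rw [h] at this
  simp at this

theorem TB10_step (t ℓ : ℕ) :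
    (TB10_A (t + 1) * ℓ = TB10_A t * ℓ + 2 * ℓ ∧ TB10_B (t + 1) * ℓ = TB10_B t * ℓ) ∨
    (TB10_A (t + 1) * ℓ = TB10_A t * ℓ ∧ TB10_B (t + 1) * ℓ = TB10_B t * ℓ + 2 * ℓ) := by
  rcases Nat.lt_or_ge t 1472 with h | h
  · left
    have h1 : TB10_A (t + 1) = TB10_A t + 2 := by unfold TB10_A; omega
    have h2 : TB10_B (t + 1) = TB10_B t := by unfold TB10_B; omega
    rw [h1, h2]
    exact ⟨by ring, rfl⟩
  · rcases Nat.lt_or_ge t 2432 with h' | h'
    · right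
      have h1 : TB10_A (t + 1) = TB10_A t := by unfold TB10_A; omega
      have h2 : TB10_B (t + 1) = TB10_B t + 2 := by unfold TB10_B; omega
      rw [h1, h2]
      exact ⟨rfl, by ring⟩
    · left
      have h1 : TB10_A (t + 1) = TB10_A t + 2 := by unfold TB10_A; omega
      have h2 : TB10_B (t + 1) = TB10_B t := by unfold TB10_B; omega
      rw [h1, h2]
      exact ⟨by ring, rfl⟩

theorem TB10_gnb (x : V) (ℓ l t : ℕ) : gnb ℓ (TB10_g x ℓ l t) (TB10_g x ℓ l (t + 1)) := by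
  have h0 : (128 + 2 * (t + 1)) * ℓ = (128 + 2 * t) * ℓ + 2 * ℓ := by ring
  unfold gnb TB10_g
  split_ifs
  · rcases TB10_step t ℓ with ⟨h1, h2⟩ | ⟨h1, h2⟩
    · left; rw [h1, h2]; simp only [Prod.mk.injEq, and_true]; push_cast; ring
    · right; right; right; rw [h1, h2]; simp only [Prod.mk.injEq, true_and]; push_cast; ring
  · rcases TB10_step t ℓ with ⟨h1, h2⟩ | ⟨h1, h2⟩
    · left; rw [h1, h2]; simp only [Prod.mk.injEq, and_true]; push_cast; ring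
    · right; right; left; rw [h1, h2]; simp only [Prod.mk.injEq, true_and]; push_cast; ring
  · right; right; left; rw [h0]; simp only [Prod.mk.injEq, true_and]; push_cast; ring
  · rcases TB10_step t ℓ with ⟨h1, h2⟩ | ⟨h1, h2⟩
    · right; left; rw [h1, h2]; simp only [Prod.mk.injEq, and_true]; push_cast; ring
    · right; right; left; rw [h1, h2]; simp only [Prod.mk.injEq, true_and]; push_cast; ring
  · rcases TB10_step t ℓ with ⟨h1, h2⟩ | ⟨h1, h2⟩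
    · right; left; rw [h1, h2]; simp only [Prod.mk.injEq, and_true]; push_cast; ring
    · right; right; right; rw [h1, h2]; simp only [Prod.mk.injEq, true_and]; push_cast; ring
  · right; right; right; rw [h0]; simp only [Prod.mk.injEq, true_and]; push_cast; ring

theorem TB10_chn (x : V) (ℓ l : ℕ) : Chn ℓ (TB10_gs x ℓ l) := by
  unfold Chn TB10_gs
  rw [List.isChain_map, List.isChain_range]
  intro m hm
  exact TB10_gnb x ℓ l m

theorem TB10_mem (x : V) (ℓ l t : ℕ) (ht : t ≤ TB10_n l) : TB10_g x ℓ l t ∈ TB10_gs x ℓ l :=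
  List.mem_map.2 ⟨t, List.mem_range.2 (by omega), rfl⟩

/-! ## The regions -/

/-- The bent band in the first quadrant. -/
def TB10_Q (ℓ X Y : ℤ) : Prop :=
  (125 * ℓ < X ∧ X < 3075 * ℓ ∧ 125 * ℓ < Y ∧ Y < 131 * ℓ) ∨
  (3069 * ℓ < X ∧ X < 3075 * ℓ ∧ 125 * ℓ < Y ∧ Y < 2051 * ℓ) ∨
  (3069 * ℓ < X ∧ 2045 * ℓ < Y ∧ Y < 2051 * ℓ)

/-- The vertical band. -/
def TB10_T (ℓ X Y : ℤ) : Prop := -(3 * ℓ) < X ∧ X < 3 * ℓ ∧ 125 * ℓ < Y

/-- The region of the chain number `l`. -/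
def TB10_R (x : V) (ℓ l : ℕ) (v : V) : Prop :=
  if l = 0 then TB10_Q ℓ (v.1 - x.1) (x.2 - v.2)
  else if l = 1 then TB10_Q ℓ (v.1 - x.1) (v.2 - x.2)
  else if l = 2 then TB10_T ℓ (v.1 - x.1) (v.2 - x.2)
  else if l = 3 then TB10_Q ℓ (x.1 - v.1) (v.2 - x.2)
  else if l = 4 then TB10_Q ℓ (x.1 - v.1) (x.2 - v.2)
  else TB10_T ℓ (v.1 - x.1) (x.2 - v.2)

theorem TB10_AB (t ℓ : ℕ) :
    (128 * ℓ ≤ TB10_A t * ℓ ∧ TB10_A t * ℓ ≤ 3072 * ℓ ∧ TB10_B t * ℓ = 128 * ℓ) ∨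
    (TB10_A t * ℓ = 3072 * ℓ ∧ 128 * ℓ ≤ TB10_B t * ℓ ∧ TB10_B t * ℓ ≤ 2048 * ℓ) ∨
    (3072 * ℓ ≤ TB10_A t * ℓ ∧ TB10_B t * ℓ = 2048 * ℓ) := by
  rcases Nat.lt_or_ge t 1472 with h | h
  · left
    refine ⟨Nat.mul_le_mul_right _ ?_, Nat.mul_le_mul_right _ ?_, congrArg (· * ℓ) ?_⟩
    · unfold TB10_A; omega
    · unfold TB10_A; omega
    · unfold TB10_B; omega
  · rcases Nat.lt_or_ge t 2432 with h' | h'
    · right; left
      refine ⟨congrArg (· * ℓ) ?_, Nat.mul_le_mul_right _ ?_, Nat.mul_le_mul_right _ ?_⟩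
      · unfold TB10_A; omega
      · unfold TB10_B; omega
      · unfold TB10_B; omega
    · right; right
      refine ⟨Nat.mul_le_mul_right _ ?_, congrArg (· * ℓ) ?_⟩
      · unfold TB10_A; omega
      · unfold TB10_B; omega

theorem TB10_quad {ℓ : ℕ} {a b : ℕ} {X Y : ℤ}
    (h : (128 * ℓ ≤ a ∧ a ≤ 3072 * ℓ ∧ b = 128 * ℓ) ∨
      (a = 3072 * ℓ ∧ 128 * ℓ ≤ b ∧ b ≤ 2048 * ℓ) ∨ (3072 * ℓ ≤ a ∧ b = 2048 * ℓ))
    (hX : ((a : ℤ) - X).natAbs < 3 * ℓ) (hY : ((b : ℤ) - Y).natAbs < 3 * ℓ) : TB10_Q ℓ X Y := by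
  unfold TB10_Q
  omega

theorem TB10_reg {x : V} {ℓ l : ℕ} {v : V} (hv : v ∈ reg ℓ (TB10_gs x ℓ l)) :
    TB10_R x ℓ l v := by
  obtain ⟨g, hg, hgv⟩ := hv
  simp only [TB10_gs, List.mem_map, List.mem_range] at hg
  obtain ⟨t, ht, rfl⟩ := hg
  have hAB := TB10_AB t ℓ
  have h0 : 128 * ℓ ≤ (128 + 2 * t) * ℓ := Nat.mul_le_mul_right _ (by omega)
  unfold TB10_g DP.sd at hgv
  rw [max_lt_iff] at hgv
  generalize TB10_A t * ℓ = a at *
  generalize TB10_B t * ℓ = b at *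
  generalize (128 + 2 * t) * ℓ = r at *
  unfold TB10_R
  obtain ⟨e1, e2⟩ := hgv
  split_ifs at e1 e2 ⊢ <;> simp only [TB10_Q, TB10_T] at * <;> omega

theorem TB10_zp {x : V} {ℓ l N : ℕ} {v : V} (hl : l < 6) (hN : N = 256 ∨ N = 4096)
    (hv : TB10_R x ℓ l v) (h : sd x v = N * ℓ) : sd (zp6 x (N * ℓ) l) v ≤ 3 * ℓ := by
  unfold TB10_R at hv
  have hd : N * ℓ / 2 = N / 2 * ℓ := by
    rcases hN with rfl | rfl <;> omega
  unfold zp6
  rw [hd]
  rcases hN with rfl | rfl <;> interval_cases l <;> simp [TB10_Q, TB10_T] at hv ⊢ <;>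
    unfold DP.sd at h ⊢ <;> simp only <;> omega

theorem TB10_far {x : V} {ℓ i j N : ℕ} {v : V} (hi : i < 6) (hj : j < 6)
    (hN : N = 256 ∨ N = 4096) (hc : conf i j) (hv : TB10_R x ℓ i v) :
    N * ℓ / 8 < sd (zp6 x (N * ℓ) j) v := by
  have hd : N * ℓ / 2 = N / 2 * ℓ := by
    rcases hN with rfl | rfl <;> omega
  unfold TB10_R at hv
  unfold zp6
  rw [hd]
  unfold conf kol6 at hc
  rcases hN with rfl | rfl <;> interval_cases i <;> interval_cases j <;>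
    simp [TB10_Q, TB10_T] at hc hv ⊢ <;>
    unfold DP.sd <;> simp only <;> omega

theorem TB10_sep {x : V} {ℓ i j : ℕ} {v w : V} (hi : i < 6) (hj : j < 6) (hc : conf i j)
    (hv : TB10_R x ℓ i v) (hw : TB10_R x ℓ j w) : 2 ≤ sd v w := by
  unfold TB10_R at hv hw
  unfold conf kol6 at hc
  interval_cases i <;> interval_cases j <;>
    simp [TB10_Q, TB10_T] at hc hv hw ⊢ <;>
    unfold DP.sd <;> omega

/-! ## The arms -/

/-- Radius of the first and of the last cell. -/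
theorem TB10_ends {x : V} {ℓ l : ℕ} (hl : l < 6) :
    (∀ v, sd (TB10_g x ℓ l 0) v < 3 * ℓ → sd x v ≤ 256 * ℓ) ∧
      ∀ v, sd (TB10_g x ℓ l (TB10_n l)) v < 3 * ℓ → 4096 * ℓ ≤ sd x v := by
  have hA : TB10_A 3072 = 4352 := by unfold TB10_A; omega
  have hB : TB10_B 3072 = 2048 := by unfold TB10_B; omega
  have hA0 : TB10_A 0 = 128 := by unfold TB10_A; omega
  have hB0 : TB10_B 0 = 128 := by unfold TB10_B; omega
  constructor
  · intro v hv
    interval_cases l <;> simp [TB10_g, TB10_n, hA0, hB0] at hv <;> unfold DP.sd at hv ⊢ <;>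
      simp only at hv <;> omega
  · intro v hv
    interval_cases l <;> simp [TB10_g, TB10_n, hA, hB] at hv <;> unfold DP.sd at hv ⊢ <;>
      simp only at hv <;> omega

/-- Loops in the chain give an arm. -/
theorem TB10_path (hCH1 : CH1_stmt) (c : V → Bool) (k : Bool) (x : V) (ℓ l : ℕ) (hl : l < 6)
    (hF : Full c k ℓ (TB10_gs x ℓ l)) :
    ∃ (p q : V) (L : List V), sd x p = 256 * ℓ ∧ sd x q = 4096 * ℓ ∧
      IsPath {v | TB10_R x ℓ l v ∧ c v = k ∧ v ∈ ann x (256 * ℓ) (4096 * ℓ)} L p q := by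
  obtain ⟨U, hU, hUc, hS⟩ := hCH1 c k ℓ _ hF (TB10_chn x ℓ l) (TB10_ne x ℓ l)
  have key : ∀ t ≤ TB10_n l, ∃ z ∈ U, sd (TB10_g x ℓ l t) z < 3 * ℓ := by
    intro t ht
    obtain ⟨S, ⟨L, u, hL, -, rfl⟩, hSU⟩ := hS _ (TB10_mem x ℓ l t ht)
    exact ⟨u, hSU hL.mem_left, (hL.subset u hL.mem_left).2.1⟩
  obtain ⟨z, hz, h1⟩ := key 0 (Nat.zero_le _)
  obtain ⟨z', hz', h2⟩ := key _ le_rfl
  obtain ⟨e1, e2⟩ := TB10_ends (x := x) (ℓ := ℓ) hl
  obtain ⟨p, q, hp, hq, hpq, -, -⟩ := (hUc z hz z' hz').cross (e1 z h1) (by omega) (e2 z' h2)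
  obtain ⟨L, hL, -⟩ := hpq.exists_path
  refine ⟨p, q, L, hp, hq, hL.mono ?_⟩
  rintro v ⟨hv1, hv2⟩
  exact ⟨TB10_reg (hU v hv1).1, (hU v hv1).2, hv2⟩

/-- The loops in all chains. -/
def TB10_E (c : V → Bool) (x : V) (ℓ : ℕ) : Prop :=
  Full c true ℓ (TB10_gs x ℓ 0 ++ (TB10_gs x ℓ 1 ++ (TB10_gs x ℓ 3 ++ TB10_gs x ℓ 4))) ∧
    Full c false ℓ (TB10_gs x ℓ 2 ++ TB10_gs x ℓ 5)

theorem TB10_full {c : V → Bool} {x : V} {ℓ : ℕ} (h : TB10_E c x ℓ) (l : ℕ) (hl : l < 6) :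
    Full c (kol6 l) ℓ (TB10_gs x ℓ l) := by
  obtain ⟨h1, h2⟩ := h
  interval_cases l
  · exact fun g hg => h1 g (List.mem_append_left _ hg)
  · exact fun g hg => h1 g (List.mem_append_right _ (List.mem_append_left _ hg))
  · exact fun g hg => h2 g (List.mem_append_left _ hg)
  · exact fun g hg => h1 g (List.mem_append_right _ (List.mem_append_right _
      (List.mem_append_left _ hg)))
  · exact fun g hg => h1 g (List.mem_append_right _ (List.mem_append_right _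
      (List.mem_append_right _ hg)))
  · exact fun g hg => h2 g (List.mem_append_right _ hg)

theorem TB10_six (hCH1 : CH1_stmt) {c : V → Bool} {x : V} {ℓ : ℕ}
    (h : TB10_E c x ℓ) : SixStd c x (256 * ℓ) (4096 * ℓ) := by
  have hP : ∀ l, ∃ (p q : V) (L : List V), l < 6 → sd x p = 256 * ℓ ∧ sd x q = 4096 * ℓ ∧
      IsPath {v | TB10_R x ℓ l v ∧ c v = kol6 l ∧ v ∈ ann x (256 * ℓ) (4096 * ℓ)} L p q := by
    intro l
    by_cases hl : l < 6
    · obtain ⟨p, q, L, h1⟩ := TB10_path hCH1 c (kol6 l) x ℓ l hl (TB10_full h l hl)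
      exact ⟨p, q, L, fun _ => h1⟩
    · exact ⟨x, x, [], fun h => absurd h hl⟩
  choose p q L hL using hP
  have key : ∀ k, Arm6 c k x (std6 x (4096 * ℓ)) (std6 x (256 * ℓ)) := by
    intro k
    refine ⟨L, ?_, ?_⟩
    · intro i hi hk
      obtain ⟨h1, h2, h3⟩ := hL i hi
      have hp := h3.subset _ h3.mem_left
      have hq := h3.subset _ h3.mem_right
      refine ⟨p i, q i, h1, ?_, h2, ?_, h3.mono ?_⟩
      · have := TB10_zp hi (Or.inl rfl) hp.1 h1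
        simp only [std6]
        omega
      · have := TB10_zp hi (Or.inr rfl) hq.1 h2
        simp only [std6]
        omega
      · rintro v ⟨hv1, hv2, hv3⟩
        refine ⟨⟨?_, ?_, ?_⟩, by rw [hv2, hk]⟩
        · have e1 : min (4096 * ℓ) (256 * ℓ) = 256 * ℓ := by omega
          have e2 : max (4096 * ℓ) (256 * ℓ) = 4096 * ℓ := by omega
          simp only [std6]
          rw [e1, e2]
          exact hv3
        · rintro ⟨j, hj, hc, hjv⟩
          have := TB10_far (N := 4096) hi hj (Or.inr rfl) hc hv1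
          simp only [std6] at hjv
          omega
        · rintro ⟨j, hj, hc, hjv⟩
          have := TB10_far (N := 256) hi hj (Or.inl rfl) hc hv1
          simp only [std6] at hjv
          omega
    · intro i hi j hj _ _ hc
      refine BDis.of_sd fun v hv w hw => ?_
      exact TB10_sep hi hj hc ((hL i hi).2.2.subset v hv).1 ((hL j hj).2.2.subset w hw).1
  exact ⟨key true, key false⟩

/-! ## Probability -/

theorem TB10_bdis (x : V) (ℓ : ℕ) :
    BDis (reg ℓ (TB10_gs x ℓ 0 ++ (TB10_gs x ℓ 1 ++ (TB10_gs x ℓ 3 ++ TB10_gs x ℓ 4))))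
      (reg ℓ (TB10_gs x ℓ 2 ++ TB10_gs x ℓ 5)) := by
  refine BDis.of_sd ?_
  rintro v ⟨g, hg, hgv⟩ w ⟨g', hg', hgv'⟩
  have h1 : ∃ i < 6, kol6 i = true ∧ TB10_R x ℓ i v := by
    rcases List.mem_append.1 hg with hg | hg
    · exact ⟨0, by norm_num, by decide, TB10_reg ⟨g, hg, hgv⟩⟩
    · rcases List.mem_append.1 hg with hg | hg
      · exact ⟨1, by norm_num, by decide, TB10_reg ⟨g, hg, hgv⟩⟩
      · rcases List.mem_append.1 hg with hg | hg
        · exact ⟨3, by norm_num, by decide, TB10_reg ⟨g, hg, hgv⟩⟩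
        · exact ⟨4, by norm_num, by decide, TB10_reg ⟨g, hg, hgv⟩⟩
  have h2 : ∃ i < 6, kol6 i = false ∧ TB10_R x ℓ i w := by
    rcases List.mem_append.1 hg' with hg' | hg'
    · exact ⟨2, by norm_num, by decide, TB10_reg ⟨g', hg', hgv'⟩⟩
    · exact ⟨5, by norm_num, by decide, TB10_reg ⟨g', hg', hgv'⟩⟩
  obtain ⟨i, hi, hki, hv⟩ := h1
  obtain ⟨j, hj, hkj, hw⟩ := h2
  refine TB10_sep hi hj ⟨?_, Or.inl ?_⟩ hv hw
  · rintro rfl
    rw [hki] at hkj
    exact Bool.noConfusion hkj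
  · rw [hki, hkj]
    decide

theorem TB10 (hC1 : C1_stmt) (hCH1 : CH1_stmt) (hCH3 : CH3_stmt) (hCH4 : CH4_stmt)
    (hInd : Bindep_stmt) (hZero : Bzero_stmt) : TB10_stmt := by
  obtain ⟨c₀, hc₀, ℓ₀, hℓ₀, hC⟩ := hC1
  refine ⟨c₀ ^ (2 * 12292) * c₀ ^ (2 * 4226), by positivity, ℓ₀ + 8, ?_⟩
  intro x p hp
  obtain ⟨m, rfl⟩ : ∃ m, p = m + 8 := ⟨p - 8, by omega⟩
  have hm : ℓ₀ ≤ 2 ^ m := le_trans (by omega) (Nat.lt_two_pow_self (n := m)).le
  have e1 : 2 ^ (m + 8) = 256 * 2 ^ m := by rw [pow_add]; ring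
  have e2 : 2 ^ (m + 8 + 4) = 4096 * 2 ^ m := by rw [pow_add, pow_add]; ring
  rw [e2, e1]
  set ℓ := 2 ^ m with hℓ
  set G1 := TB10_gs x ℓ 0 ++ (TB10_gs x ℓ 1 ++ (TB10_gs x ℓ 3 ++ TB10_gs x ℓ 4)) with hG1
  set G2 := TB10_gs x ℓ 2 ++ TB10_gs x ℓ 5 with hG2
  have hρ : Profile (fun _ : V => (0 : ℝ)) := fun _ => ⟨le_rfl, zero_le_one⟩
  have hl1 : G1.length = 12292 := by
    rw [hG1]
    simp only [List.length_append, TB10_len, TB10_n]
    norm_num
  have hl2 : G2.length = 4226 := by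
    rw [hG2]
    simp only [List.length_append, TB10_len, TB10_n]
    norm_num
  have hE : (Ev fun c => TB10_E c x ℓ) = (Ev fun c => Full c true ℓ G1) ∩
      (Ev fun c => Full c false ℓ G2) := rfl
  have hQ : c₀ ^ (2 * 12292) * c₀ ^ (2 * 4226) ≤ Pr (Ev fun c => TB10_E c x ℓ) := by
    have hb := hCH3 c₀ ℓ true (fun _ => 0) G1 hρ hc₀.le (fun g => hC true g ℓ hm)
    have hw := hCH3 c₀ ℓ false (fun _ => 0) G2 hρ hc₀.le (fun g => hC false g ℓ hm)
    rw [hl1] at hb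
    rw [hl2] at hw
    have h1 := hInd (fun _ => 0) _ _ _ _ _ _ (TB10_bdis x ℓ) (hCH4 ℓ true _).1
      (hCH4 ℓ true _).1 (hCH4 ℓ false _).1 (hCH4 ℓ false _).1
    have hloc : Loc (Ev fun c => TB10_E c x ℓ) Set.univ := by
      rw [hE]
      exact ((hCH4 ℓ true G1).1.inter (hCH4 ℓ false G2).1).mono (Set.subset_univ _)
    have h2 := hZero (fun _ => 0) _ _ Set.univ hloc hloc (fun _ _ => rfl)
    rw [Set.inter_self] at h2
    rw [← h2, hE, h1]
    exact mul_le_mul hb hw (by positivity) (le_trans (by positivity) hb)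
  refine hQ.trans ?_
  unfold Pr
  have hP : IsProbabilityMeasure P1 := by unfold P1; infer_instance
  exact measureReal_mono (fun b hb => TB10_six hCH1 hb)

end TP
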