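import Pool.Agent.helper33.SP.SpecC2S

/-!
# Project sp, module VA8: telescoping of the block weights
-/

set_option autoImplicit false

namespace TP

open DP MeasureTheory

theorem VA8_abs (w : ℕ → ℝ) (J : ℕ) :
    ∑ j ∈ Finset.range J, w j * ∏ l ∈ Finset.Ioo j J, (1 - w l) =
      1 - ∏ l ∈ Finset.range J, (1 - w l) := by
  induction J with
  | zero => simp
  | succ J ih =>
    rw [Finset.sum_range_succ, Finset.prod_range_succ]
    have h1 : ∀ j ∈ Finset.range J, w j * ∏ l ∈ Finset.Ioo j (J + 1), (1 - w l) =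
        (w j * ∏ l ∈ Finset.Ioo j J, (1 - w l)) * (1 - w J) := by
      intro j hj
      rw [Finset.mem_range] at hj
      have h2 : Finset.Ioo j (J + 1) = insert J (Finset.Ioo j J) := by
        ext l
        simp only [Finset.mem_Ioo, Finset.mem_insert]
        omega
      rw [h2, Finset.prod_insert (by simp)]
      ring
    have h3 : Finset.Ioo J (J + 1) = ∅ := by
      ext l
      simp only [Finset.mem_Ioo, Finset.notMem_empty, iff_false]
      omega
    rw [Finset.sum_congr rfl h1, ← Finset.sum_mul, ih, h3, Finset.prod_empty]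
    ring

theorem VA8_sum (z : V) (g h P J : ℕ) (b : V → Bool) :
    ∑ j ∈ Finset.range J, Rf z g h P J j b = 1 - Nf z g h P J b :=
  VA8_abs (fun l => wf z g h P l b) J

theorem VA8 : VA8_stmt := by
  intro x y g h P P' J b
  refine ⟨VA8_sum x g h P J b, ?_, ?_⟩
  · have h1 : ∑ j ∈ Finset.range J, ∑ k ∈ Finset.range J, ∑ l ∈ Finset.range J,
        R3 x y g h P P' J j k l b = (∑ j ∈ Finset.range J, Rf x g h P J j b) *
          (∑ k ∈ Finset.range J, Rf y g h P J k b) * (∑ l ∈ Finset.range J, Rf x g h P' J l b) := by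
      rw [Finset.sum_mul_sum, Finset.sum_mul]
      refine Finset.sum_congr rfl fun j _ => ?_
      rw [Finset.sum_mul]
      refine Finset.sum_congr rfl fun k _ => ?_
      rw [Finset.mul_sum]
      rfl
    rw [h1, VA8_sum, VA8_sum, VA8_sum]
    unfold Q3
    ring
  · intro hw
    have hN : ∀ (z : V) (P : ℕ), 0 ≤ Nf z g h P J b ∧ Nf z g h P J b ≤ 1 := by
      intro z P
      unfold Nf
      constructor
      · exact Finset.prod_nonneg fun l _ => by linarith [(hw z P l b).2]
      · exact Finset.prod_le_one (fun l _ => by linarith [(hw z P l b).2])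
          (fun l _ => by linarith [(hw z P l b).1])
    obtain ⟨a0, a1⟩ := hN x P
    obtain ⟨b0, b1⟩ := hN y P
    obtain ⟨c0, c1⟩ := hN x P'
    unfold Q3
    have e1 : 0 ≤ 1 - Nf x g h P J b := by linarith
    have e2 : 0 ≤ 1 - Nf y g h P J b := by linarith
    have e3 : 0 ≤ 1 - Nf x g h P' J b := by linarith
    have e4 : (1 - Nf x g h P J b) * (1 - Nf y g h P J b) ≤ 1 :=
      mul_le_one₀ (by linarith) e2 (by linarith)
    have e5 : (1 - Nf x g h P J b) * (1 - Nf y g h P J b) * (1 - Nf x g h P' J b) ≤ 1 :=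
      mul_le_one₀ e4 e3 (by linarith)
    have e6 : 1 - Nf x g h P J b - Nf y g h P J b ≤
        (1 - Nf x g h P J b) * (1 - Nf y g h P J b) := by nlinarith
    have e7 : (1 - Nf x g h P J b) * (1 - Nf y g h P J b) - Nf x g h P' J b ≤
        (1 - Nf x g h P J b) * (1 - Nf y g h P J b) * (1 - Nf x g h P' J b) := by nlinarith
    constructor <;> linarith

end TP
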